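import Pool.Agent.Q18.HC.Stm

/-!
# Exactness of the truncated complex (MP_3ca9d5_al)
-/

set_option autoImplicit false

namespace Pool.Agent.HX6.HC

open Pool.Agent.W326.DU Pool.Agent.Y66.HC Pool.Agent.Q18.HC

section
variable {V M : Type} [Fintype V] [AddCommGroup M] {ad : V → V → Prop}
  {U U' : V → M →+ M} {p : ℤ → M →+ M}

theorem Sup_mono {a b a' b' : ℤ} {x : M} (h : Sup p a b x) (ha : a' ≤ a) (hb : b ≤ b') :
    Sup p a' b' x := fun n hn => h n (by omega)

theorem p_U' (hG : Grad ad U U' p) (v : V) (n : ℤ) (x : M) :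
    p n (U' v x) = U' v (p (n + 1) x) := by
  have h1 : U v (p n (U' v x)) = p (n + 1) x := by
    rw [← hG.deg, hG.inv1]
  rw [← h1, hG.inv2]

theorem p_U (hG : Grad ad U U' p) (v : V) (n : ℤ) (x : M) :
    p n (U v x) = U v (p (n - 1) x) := by
  have := hG.deg v (n - 1) x
  rwa [sub_add_cancel] at this

theorem comm' (hG : Grad ad U U' p) (a b : V) (h : ad a b) (x : M) :
    U' a (U' b x) = U' b (U' a x) := by
  have h1 : x = U b (U a (U' a (U' b x))) := by rw [hG.inv1, hG.inv1]
  have h2 : U b (U a (U' a (U' b x))) = U a (U b (U' a (U' b x))) := (hG.comm a b h _).symm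
  have h3 : U' b (U' a x) = U' b (U' a (U a (U b (U' a (U' b x))))) := by
    rw [← h2, ← h1]
  rw [h3, hG.inv2, hG.inv2]

theorem commU' (hG : Grad ad U U' p) (a b : V) (h : ad a b) (x : M) :
    U' a (U b x) = U b (U' a x) := by
  have h1 : U a (U b (U' a x)) = U b x := by
    rw [hG.comm a b h, hG.inv1]
  rw [← h1, hG.inv2]

/-! ### boundaries -/

/-- the boundary of a `1`-chain -/
def b1 (U : V → M →+ M) (y : V → M) : M := ∑ v, (U v (y v) - y v)
/-- the boundary of a `2`-chain -/
def b2 (U : V → M →+ M) (y : V → V → M) (b : V) : M := ∑ a, (U a (y a b) - y a b)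
/-- the boundary of a `3`-chain -/
def b3 (U : V → M →+ M) (z : V → V → V → M) (b c : V) : M := ∑ a, (U a (z a b c) - z a b c)

theorem b1_add (y y' : V → M) : b1 U (fun v => y v + y' v) = b1 U y + b1 U y' := by
  unfold b1
  rw [← Finset.sum_add_distrib]
  refine Finset.sum_congr rfl fun v _ => ?_
  simp only [map_add]
  abel

theorem b1_sub (y y' : V → M) : b1 U (fun v => y v - y' v) = b1 U y - b1 U y' := by
  unfold b1
  rw [← Finset.sum_sub_distrib]
  refine Finset.sum_congr rfl fun v _ => ?_
  simp only [map_sub]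
  abel

theorem b2_add (y y' : V → V → M) (b : V) :
    b2 U (fun a b => y a b + y' a b) b = b2 U y b + b2 U y' b := by
  unfold b2
  rw [← Finset.sum_add_distrib]
  refine Finset.sum_congr rfl fun v _ => ?_
  simp only [map_add]
  abel

theorem b2_sub (y y' : V → V → M) (b : V) :
    b2 U (fun a b => y a b - y' a b) b = b2 U y b - b2 U y' b := by
  unfold b2
  rw [← Finset.sum_sub_distrib]
  refine Finset.sum_congr rfl fun v _ => ?_
  simp only [map_sub]
  abel

/-- a double sum over an antisymmetric function vanishes -/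
theorem sum_anti (f : V → V → M) (hf : ∀ a b, f a b = - f b a)
    (hd : ∀ a, f a a = 0) : ∑ a, ∑ b, f a b = 0 := by
  classical
  -- use a linear order
  letI : LinearOrder V := linearOrderOfSTO (r := WellOrderingRel)
  have h1 : ∑ a, ∑ b, f a b = ∑ q : V × V, f q.1 q.2 := by
    rw [Fintype.sum_prod_type]
  rw [h1]
  refine Finset.sum_involution (fun q _ => (q.2, q.1)) ?_ ?_ ?_ ?_
  · intro q _
    rw [hf q.1 q.2]
    simp
  · intro q _ hq h
    apply hq
    have : q.1 = q.2 := by
      have := congrArg Prod.snd h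
      simpa using this
    rw [this]
    exact hd _
  · intro q _
    simp
  · intro q _
    simp

theorem b1_b2 (hG : Grad ad U U' p) (hirr : ∀ a, ¬ ad a a) (z : V → V → M)
    (hz : IsAlt2 ad Set.univ z) :
    b1 U (b2 U z) = 0 := by
  unfold b1 b2
  have h1 : ∀ v, U v (∑ a, (U a (z a v) - z a v)) - ∑ a, (U a (z a v) - z a v) =
      ∑ a, (U v (U a (z a v)) - U v (z a v) - (U a (z a v) - z a v)) := by
    intro v
    rw [map_sum, ← Finset.sum_sub_distrib]
    refine Finset.sum_congr rfl fun a _ => ?_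
    rw [map_sub]
  rw [Finset.sum_congr rfl fun v _ => h1 v]
  refine sum_anti _ ?_ ?_
  · intro v a
    rw [hz.1 v a]
    by_cases h : ad v a
    · rw [map_neg, map_neg, map_neg, hG.comm v a h]
      abel
    · have h2 : z v a = 0 := hz.2 v a (fun h3 => h h3.2.2)
      have h3 : z a v = 0 := by rw [hz.1 a v, h2, neg_zero]
      simp [h3]
  · intro a
    have : z a a = 0 := hz.2 a a (fun h => hirr a h.2.2)
    simp [this]

theorem b2_b3 (hG : Grad ad U U' p) (hirr : ∀ a, ¬ ad a a) (z : V → V → V → M)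
    (hz : IsAlt3 ad Set.univ z) (c : V) :
    b2 U (b3 U z) c = 0 := by
  unfold b2 b3
  have h1 : ∀ v, U v (∑ a, (U a (z a v c) - z a v c)) - ∑ a, (U a (z a v c) - z a v c) =
      ∑ a, (U v (U a (z a v c)) - U v (z a v c) - (U a (z a v c) - z a v c)) := by
    intro v
    rw [map_sum, ← Finset.sum_sub_distrib]
    refine Finset.sum_congr rfl fun a _ => ?_
    rw [map_sub]
  rw [Finset.sum_congr rfl fun v _ => h1 v]
  refine sum_anti _ ?_ ?_
  · intro v a
    rw [hz.1 v a c]
    by_cases h : ad v a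
    · rw [map_neg, map_neg, map_neg, hG.comm v a h]
      abel
    · have h2 : z v a c = 0 := hz.2.2 v a c (fun h3 => h h3.2.2.2.1)
      have h3 : z a v c = 0 := by rw [hz.1 a v c, h2, neg_zero]
      simp [h3]
  · intro a
    have : z a a c = 0 := hz.2.2 a a c (fun h => hirr a h.2.2.2.1)
    simp [this]

/-- the boundary of an alternating `3`-chain is alternating -/
theorem alt_b3 (hG : Grad ad U U' p) (z : V → V → V → M) (hz : IsAlt3 ad Set.univ z) :
    IsAlt2 ad Set.univ (b3 U z) := by
  constructor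
  · intro a b
    unfold b3
    rw [← Finset.sum_neg_distrib]
    refine Finset.sum_congr rfl fun v _ => ?_
    rw [hz.2.1 v a b, map_neg]
    abel
  · intro a b h
    unfold b3
    refine Finset.sum_eq_zero fun v _ => ?_
    rw [hz.2.2 v a b (fun h2 => h ⟨trivial, trivial, h2.2.2.2.2.1⟩), map_zero, sub_zero]

theorem alt2_sub {y y' : V → V → M} (h : IsAlt2 ad Set.univ y) (h' : IsAlt2 ad Set.univ y') :
    IsAlt2 ad Set.univ (fun a b => y a b - y' a b) := by
  constructor
  · intro a b
    show y a b - y' a b = -(y b a - y' b a)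
    rw [h.1 a b, h'.1 a b]
    abel
  · intro a b hab
    show y a b - y' a b = 0
    rw [h.2 a b hab, h'.2 a b hab, sub_zero]

theorem alt2_add {y y' : V → V → M} (h : IsAlt2 ad Set.univ y) (h' : IsAlt2 ad Set.univ y') :
    IsAlt2 ad Set.univ (fun a b => y a b + y' a b) := by
  constructor
  · intro a b
    show y a b + y' a b = -(y b a + y' b a)
    rw [h.1 a b, h'.1 a b]
    abel
  · intro a b hab
    show y a b + y' a b = 0
    rw [h.2 a b hab, h'.2 a b hab, add_zero]

end

end Pool.Agent.HX6.HC
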