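import Pool.Agent.HX6.HC.TR

/-!
# Exactness of the truncated complex (MP_3ca9d5_al): reductions
-/

set_option autoImplicit false

namespace Pool.Agent.HX6.HC

open Pool.Agent.W326.DU Pool.Agent.Y66.HC Pool.Agent.Q18.HC

section
variable {V M : Type} [Fintype V] [AddCommGroup M] {ad : V → V → Prop}
  {U U' : V → M →+ M} {p : ℤ → M →+ M}

theorem p_b1 (hG : Grad ad U U' p) (k : ℤ) (y : V → M) :
    p k (b1 U y) = ∑ v, U v (p (k - 1) (y v)) - ∑ v, p k (y v) := by
  unfold b1
  rw [map_sum, ← Finset.sum_sub_distrib]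
  refine Finset.sum_congr rfl fun v _ => ?_
  rw [map_sub, p_U hG]

theorem p_b2 (hG : Grad ad U U' p) (k : ℤ) (y : V → V → M) (b : V) :
    p k (b2 U y b) = ∑ a, U a (p (k - 1) (y a b)) - ∑ a, p k (y a b) := by
  unfold b2
  rw [map_sum, ← Finset.sum_sub_distrib]
  refine Finset.sum_congr rfl fun v _ => ?_
  rw [map_sub, p_U hG]

theorem p_b3 (hG : Grad ad U U' p) (k : ℤ) (y : V → V → V → M) (b c : V) :
    p k (b3 U y b c) = ∑ a, U a (p (k - 1) (y a b c)) - ∑ a, p k (y a b c) := by
  unfold b3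
  rw [map_sum, ← Finset.sum_sub_distrib]
  refine Finset.sum_congr rfl fun v _ => ?_
  rw [map_sub, p_U hG]

/-- the part of degree `m` of an alternating 2-chain -/
theorem alt2_p (m : ℤ) {y : V → V → M} (h : IsAlt2 ad Set.univ y) :
    IsAlt2 ad Set.univ (fun a b => p m (y a b)) := by
  constructor
  · intro a b
    show p m (y a b) = - p m (y b a)
    rw [h.1 a b, map_neg]
  · intro a b hab
    show p m (y a b) = 0
    rw [h.2 a b hab, map_zero]

theorem alt3_p (m : ℤ) {y : V → V → V → M} (h : IsAlt3 ad Set.univ y) :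
    IsAlt3 ad Set.univ (fun a b c => p m (y a b c)) := by
  refine ⟨?_, ?_, ?_⟩
  · intro a b c
    show p m (y a b c) = - p m (y b a c)
    rw [h.1 a b c, map_neg]
  · intro a b c
    show p m (y a b c) = - p m (y a c b)
    rw [h.2.1 a b c, map_neg]
  · intro a b c hab
    show p m (y a b c) = 0
    rw [h.2.2 a b c hab, map_zero]

/-- shift down of alternating 2-chains -/
theorem alt2_U' (hG : Grad ad U U' p) {y : V → V → M} (h : IsAlt2 ad Set.univ y) :
    IsAlt2 ad Set.univ (fun a b => U' a (U' b (y a b))) := by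
  constructor
  · intro a b
    show U' a (U' b (y a b)) = - U' b (U' a (y b a))
    by_cases hab : ad a b
    · rw [comm' hG a b hab, h.1 a b, map_neg, map_neg]
    · have h1 : y a b = 0 := h.2 a b (fun h2 => hab h2.2.2)
      have h2 : y b a = 0 := by rw [h.1 b a, h1, neg_zero]
      simp [h1, h2]
  · intro a b hab
    show U' a (U' b (y a b)) = 0
    rw [h.2 a b hab, map_zero, map_zero]

theorem alt2_U (hG : Grad ad U U' p) {y : V → V → M} (h : IsAlt2 ad Set.univ y) :
    IsAlt2 ad Set.univ (fun a b => U a (U b (y a b))) := by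
  constructor
  · intro a b
    show U a (U b (y a b)) = - U b (U a (y b a))
    by_cases hab : ad a b
    · rw [hG.comm a b hab, h.1 a b, map_neg, map_neg]
    · have h1 : y a b = 0 := h.2 a b (fun h2 => hab h2.2.2)
      have h2 : y b a = 0 := by rw [h.1 b a, h1, neg_zero]
      simp [h1, h2]
  · intro a b hab
    show U a (U b (y a b)) = 0
    rw [h.2 a b hab, map_zero, map_zero]

/-- shift down of alternating 3-chains -/
theorem alt3_U' (hG : Grad ad U U' p) {z : V → V → V → M} (h : IsAlt3 ad Set.univ z) :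
    IsAlt3 ad Set.univ (fun a b c => U' a (U' b (U' c (z a b c)))) := by
  refine ⟨?_, ?_, ?_⟩
  · intro a b c
    show U' a (U' b (U' c (z a b c))) = - U' b (U' a (U' c (z b a c)))
    by_cases hab : ad a b
    · rw [comm' hG a b hab, h.1 a b c, map_neg, map_neg, map_neg]
    · have h1 : z a b c = 0 := h.2.2 a b c (fun h2 => hab h2.2.2.2.1)
      have h2 : z b a c = 0 := by rw [h.1 b a c, h1, neg_zero]
      simp [h1, h2]
  · intro a b c
    show U' a (U' b (U' c (z a b c))) = - U' a (U' c (U' b (z a c b)))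
    by_cases hab : ad b c
    · rw [comm' hG b c hab, h.2.1 a b c, map_neg, map_neg, map_neg]
    · have h1 : z a b c = 0 := h.2.2 a b c (fun h2 => hab h2.2.2.2.2.1)
      have h2 : z a c b = 0 := by rw [h.2.1 a c b, h1, neg_zero]
      simp [h1, h2]
  · intro a b c hab
    show U' a (U' b (U' c (z a b c))) = 0
    rw [h.2.2 a b c hab, map_zero, map_zero, map_zero]

theorem alt3_U (hG : Grad ad U U' p) {z : V → V → V → M} (h : IsAlt3 ad Set.univ z) :
    IsAlt3 ad Set.univ (fun a b c => U a (U b (U c (z a b c)))) := by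
  refine ⟨?_, ?_, ?_⟩
  · intro a b c
    show U a (U b (U c (z a b c))) = - U b (U a (U c (z b a c)))
    by_cases hab : ad a b
    · rw [hG.comm a b hab, h.1 a b c, map_neg, map_neg, map_neg]
    · have h1 : z a b c = 0 := h.2.2 a b c (fun h2 => hab h2.2.2.2.1)
      have h2 : z b a c = 0 := by rw [h.1 b a c, h1, neg_zero]
      simp [h1, h2]
  · intro a b c
    show U a (U b (U c (z a b c))) = - U a (U c (U b (z a c b)))
    by_cases hab : ad b c
    · rw [hG.comm b c hab, h.2.1 a b c, map_neg, map_neg, map_neg]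
    · have h1 : z a b c = 0 := h.2.2 a b c (fun h2 => hab h2.2.2.2.2.1)
      have h2 : z a c b = 0 := by rw [h.2.1 a c b, h1, neg_zero]
      simp [h1, h2]
  · intro a b c hab
    show U a (U b (U c (z a b c))) = 0
    rw [h.2.2 a b c hab, map_zero, map_zero, map_zero]

/-! ### degree one -/

theorem top1 (hG : Grad ad U U' p) (hA : Acyc ad) (hirr : ∀ a, ¬ ad a a) (K : ℤ) (hK : 0 ≤ K)
    (n : ℕ) : ∀ y : V → M, (∀ v, Sup p (-K) (n + 1) (y v)) → (∀ k, 2 < k → p k (b1 U y) = 0) →
      ∃ y' : V → M, (∀ v, Sup p (-K) 1 (y' v)) ∧ b1 U y' = b1 U y := by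
  induction n with
  | zero =>
    intro y hy _
    exact ⟨y, fun v => by simpa using hy v, rfl⟩
  | succ n ih =>
    intro y hy hb
    have hn : (0 : ℤ) ≤ n := Int.natCast_nonneg n
    have h1 := hb (n + 3) (by omega)
    rw [p_b1 hG] at h1
    have h2 : ∑ v, p ((n : ℤ) + 3) (y v) = 0 :=
      Finset.sum_eq_zero fun v _ => hy v _ (Or.inr (by push_cast; omega))
    rw [h2, sub_zero] at h1
    have h3 : ((n : ℤ) + 3 - 1) = n + 2 := by ring
    rw [h3] at h1
    obtain ⟨z, hz, hzb⟩ := hA.ac1 M (fun v => U v (p (n + 2) (y v))) h1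
    set z0 : V → V → M := fun a b => p (n + 3) (z a b) with hz0
    have hz0a : IsAlt2 ad Set.univ z0 := alt2_p _ hz
    have hz0b : ∀ b, ∑ a, z0 a b = U b (p (n + 2) (y b)) := by
      intro b
      rw [hz0]
      simp only
      rw [← map_sum, ← hzb b, p_U hG, h3, hG.idem]
    set z' : V → V → M := fun a b => U' a (U' b (z0 a b)) with hz'
    have hz'a : IsAlt2 ad Set.univ z' := alt2_U' hG hz0a
    have hz'd : ∀ a b k, k ≠ (n : ℤ) + 1 → p k (z' a b) = 0 := by
      intro a b k hk
      rw [hz']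
      simp only
      rw [p_U' hG, p_U' hG, hz0]
      simp only
      rw [hG.orth _ _ _ (by omega), map_zero, map_zero]
    have hz's : ∀ b, ∑ a, U a (z' a b) = p (n + 2) (y b) := by
      intro b
      rw [hz']
      simp only
      have : ∀ a, U a (U' a (U' b (z0 a b))) = U' b (z0 a b) := fun a => hG.inv1 _ _
      rw [Finset.sum_congr rfl fun a _ => this a, ← map_sum, hz0b, hG.inv2]
    have hnew : ∀ b, b2 U z' b = p (n + 2) (y b) - ∑ a, z' a b := by
      intro b
      unfold b2
      rw [Finset.sum_sub_distrib, hz's]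
    have hbb : b1 U (fun v => y v - b2 U z' v) = b1 U y := by
      rw [b1_sub]
      have := b1_b2 hG hirr z' hz'a
      show b1 U y - b1 U (b2 U z') = _
      rw [this, sub_zero]
    have hs : ∀ v, Sup p (-K) (n + 1) ((fun v => y v - b2 U z' v) v) := by
      intro v k hk
      show p k (y v - b2 U z' v) = 0
      rw [hnew, map_sub, map_sub, map_sum,
        Finset.sum_eq_zero (fun a _ => hz'd a v k (by omega)), sub_zero]
      by_cases h4 : k = n + 2
      · subst h4
        rw [hG.idem, sub_self]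
      · rw [hG.orth _ _ _ h4, sub_zero]
        exact hy v k (by push_cast; omega)
    obtain ⟨y', hy', hyb⟩ := ih _ hs (fun k hk => by rw [hbb]; exact hb k hk)
    exact ⟨y', hy', hyb.trans hbb⟩

theorem bot1 (hG : Grad ad U U' p) (hA : Acyc ad) (hirr : ∀ a, ¬ ad a a)
    (n : ℕ) : ∀ y : V → M, (∀ v, Sup p (-n) 1 (y v)) → (∀ k, k < 0 → p k (b1 U y) = 0) →
      ∃ y' : V → M, (∀ v, Sup p 0 1 (y' v)) ∧ b1 U y' = b1 U y := by
  induction n with
  | zero =>
    intro y hy _
    exact ⟨y, fun v => by simpa using hy v, rfl⟩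
  | succ n ih =>
    intro y hy hb
    have hn : (0 : ℤ) ≤ n := Int.natCast_nonneg n
    obtain ⟨m, hm⟩ : ∃ m : ℤ, m = -(n + 1) := ⟨_, rfl⟩
    have h1 := hb m (by omega)
    rw [p_b1 hG] at h1
    have h2 : ∑ v, U v (p (m - 1) (y v)) = 0 :=
      Finset.sum_eq_zero fun v _ => by
        rw [hy v _ (Or.inl (by push_cast; omega)), map_zero]
    rw [h2, zero_sub, neg_eq_zero] at h1
    obtain ⟨z, hz, hzb⟩ := hA.ac1 M (fun v => p m (y v)) h1
    set z0 : V → V → M := fun a b => p m (z a b) with hz0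
    have hz0a : IsAlt2 ad Set.univ z0 := alt2_p _ hz
    have hz0b : ∀ b, ∑ a, z0 a b = p m (y b) := by
      intro b
      rw [hz0]
      simp only
      rw [← map_sum, ← hzb b, hG.idem]
    have hz0d : ∀ a b k, k ≠ m → p k (z0 a b) = 0 := by
      intro a b k hk
      exact hG.orth _ _ _ hk
    have hnew : ∀ b, b2 U z0 b = ∑ a, U a (z0 a b) - p m (y b) := by
      intro b
      unfold b2
      rw [Finset.sum_sub_distrib, hz0b]
    have hbb : b1 U (fun v => y v + b2 U z0 v) = b1 U y := by
      rw [b1_add]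
      have := b1_b2 hG hirr z0 hz0a
      show b1 U y + b1 U (b2 U z0) = _
      rw [this, add_zero]
    have hs : ∀ v, Sup p (-n) 1 ((fun v => y v + b2 U z0 v) v) := by
      intro v k hk
      show p k (y v + b2 U z0 v) = 0
      rw [hnew, map_add, map_sub, map_sum,
        Finset.sum_eq_zero (fun a _ => by rw [p_U hG, hz0d a v (k - 1) (by omega), map_zero]), zero_sub]
      by_cases h4 : k = m
      · rw [h4, hG.idem, add_neg_cancel]
      · rw [hG.orth _ _ _ h4, neg_zero, add_zero]
        exact hy v k (by push_cast; omega)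
    obtain ⟨y', hy', hyb⟩ := ih _ hs (fun k hk => by rw [hbb]; exact hb k hk)
    exact ⟨y', hy', hyb.trans hbb⟩

/-! ### degree two -/

theorem top2 (hG : Grad ad U U' p) (hA : Acyc ad) (hirr : ∀ a, ¬ ad a a) (K : ℤ) (hK : 0 ≤ K)
    (n : ℕ) : ∀ y : V → V → M, IsAlt2 ad Set.univ y → (∀ a b, Sup p (-K) n (y a b)) →
      (∀ b k, 1 < k → p k (b2 U y b) = 0) →
      ∃ y' : V → V → M, IsAlt2 ad Set.univ y' ∧ (∀ a b, Sup p (-K) 0 (y' a b)) ∧
        b2 U y' = b2 U y := by
  induction n with
  | zero =>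
    intro y ha hy _
    exact ⟨y, ha, fun a b => by simpa using hy a b, rfl⟩
  | succ n ih =>
    intro y ha hy hb
    have hn : (0 : ℤ) ≤ n := Int.natCast_nonneg n
    have h1 : ∀ b, ∑ a, U a (p (n + 1) (y a b)) = 0 := by
      intro b
      have h1 := hb b (n + 2) (by omega)
      rw [p_b2 hG] at h1
      have h2 : ∑ a, p ((n : ℤ) + 2) (y a b) = 0 :=
        Finset.sum_eq_zero fun v _ => hy v b _ (Or.inr (by push_cast; omega))
      rw [h2, sub_zero] at h1
      have h3 : ((n : ℤ) + 2 - 1) = n + 1 := by ring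
      rwa [h3] at h1
    set w : V → V → M := fun a b => U a (U b (p (n + 1) (y a b))) with hw
    have hwa : IsAlt2 ad Set.univ w := alt2_U hG (alt2_p _ ha)
    have hwb : ∀ b, ∑ a, w a b = 0 := by
      intro b
      have h3 : ∀ a, w a b = U b (U a (p (n + 1) (y a b))) := by
        intro a
        by_cases hab : ad a b
        · exact hG.comm a b hab _
        · have h4 : y a b = 0 := ha.2 a b (fun h2 => hab h2.2.2)
          simp [hw, h4]
      rw [Finset.sum_congr rfl fun a _ => h3 a, ← map_sum, h1, map_zero]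
    have hwp : ∀ a b, p (n + 3) (w a b) = w a b := by
      intro a b
      rw [hw]
      simp only
      rw [p_U hG, p_U hG]
      have h3 : ((n : ℤ) + 3 - 1 - 1) = n + 1 := by ring
      rw [h3, hG.idem]
    obtain ⟨z, hz, hzb⟩ := hA.ac2 M w hwa hwb
    set z0 : V → V → V → M := fun a b c => p (n + 3) (z a b c) with hz0
    have hz0a : IsAlt3 ad Set.univ z0 := alt3_p _ hz
    have hz0b : ∀ b c, ∑ a, z0 a b c = w b c := by
      intro b c
      rw [hz0]
      simp only
      rw [← map_sum, ← hzb b c, hwp]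
    set z' : V → V → V → M := fun a b c => U' a (U' b (U' c (z0 a b c))) with hz'
    have hz'a : IsAlt3 ad Set.univ z' := alt3_U' hG hz0a
    have hz'd : ∀ a b c k, k ≠ (n : ℤ) → p k (z' a b c) = 0 := by
      intro a b c k hk
      rw [hz']
      simp only
      rw [p_U' hG, p_U' hG, p_U' hG, hz0]
      simp only
      rw [hG.orth _ _ _ (by omega), map_zero, map_zero, map_zero]
    have hz's : ∀ b c, ∑ a, U a (z' a b c) = p (n + 1) (y b c) := by
      intro b c
      rw [hz']
      simp only
      have : ∀ a, U a (U' a (U' b (U' c (z0 a b c)))) = U' b (U' c (z0 a b c)) :=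
        fun a => hG.inv1 _ _
      rw [Finset.sum_congr rfl fun a _ => this a, ← map_sum, ← map_sum, hz0b, hw]
      simp only
      by_cases hbc : ad b c
      · rw [hG.comm b c hbc, hG.inv2, hG.inv2]
      · have h4 : y b c = 0 := ha.2 b c (fun h2 => hbc h2.2.2)
        simp [h4]
    have hnew : ∀ b c, b3 U z' b c = p (n + 1) (y b c) - ∑ a, z' a b c := by
      intro b c
      unfold b3
      rw [Finset.sum_sub_distrib, hz's]
    have hbb : b2 U (fun a b => y a b - b3 U z' a b) = b2 U y := by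
      funext b
      rw [b2_sub]
      have := b2_b3 hG hirr z' hz'a b
      show b2 U y b - b2 U (b3 U z') b = _
      rw [this, sub_zero]
    have hs : ∀ a b, Sup p (-K) n ((fun a b => y a b - b3 U z' a b) a b) := by
      intro b c k hk
      show p k (y b c - b3 U z' b c) = 0
      rw [hnew, map_sub, map_sub, map_sum,
        Finset.sum_eq_zero (fun a _ => hz'd a b c k (by omega)), sub_zero]
      by_cases h4 : k = n + 1
      · subst h4
        rw [hG.idem, sub_self]
      · rw [hG.orth _ _ _ h4, sub_zero]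
        exact hy b c k (by push_cast; omega)
    obtain ⟨y', hy'a, hy', hyb⟩ := ih _ (alt2_sub ha (alt_b3 hG z' hz'a)) hs
      (fun b k hk => by rw [hbb]; exact hb b k hk)
    exact ⟨y', hy'a, hy', hyb.trans hbb⟩

theorem bot2 (hG : Grad ad U U' p) (hA : Acyc ad) (hirr : ∀ a, ¬ ad a a)
    (n : ℕ) : ∀ y : V → V → M, IsAlt2 ad Set.univ y → (∀ a b, Sup p (-n) 0 (y a b)) →
      (∀ b k, k < 0 → p k (b2 U y b) = 0) →
      ∃ y' : V → V → M, IsAlt2 ad Set.univ y' ∧ (∀ a b, Sup p 0 0 (y' a b)) ∧
        b2 U y' = b2 U y := by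
  induction n with
  | zero =>
    intro y ha hy _
    exact ⟨y, ha, fun a b => by simpa using hy a b, rfl⟩
  | succ n ih =>
    intro y ha hy hb
    have hn : (0 : ℤ) ≤ n := Int.natCast_nonneg n
    obtain ⟨m, hm⟩ : ∃ m : ℤ, m = -(n + 1) := ⟨_, rfl⟩
    have h1 : ∀ b, ∑ a, p m (y a b) = 0 := by
      intro b
      have h1 := hb b m (by omega)
      rw [p_b2 hG] at h1
      have h2 : ∑ a, U a (p (m - 1) (y a b)) = 0 :=
        Finset.sum_eq_zero fun v _ => by
          rw [hy v b _ (Or.inl (by push_cast; omega)), map_zero]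
      rwa [h2, zero_sub, neg_eq_zero] at h1
    obtain ⟨z, hz, hzb⟩ := hA.ac2 M (fun a b => p m (y a b)) (alt2_p _ ha) h1
    set z0 : V → V → V → M := fun a b c => p m (z a b c) with hz0
    have hz0a : IsAlt3 ad Set.univ z0 := alt3_p _ hz
    have hz0b : ∀ b c, ∑ a, z0 a b c = p m (y b c) := by
      intro b c
      rw [hz0]
      simp only
      rw [← map_sum, ← hzb b c, hG.idem]
    have hz0d : ∀ a b c k, k ≠ m → p k (z0 a b c) = 0 := by
      intro a b c k hk
      exact hG.orth _ _ _ hk
    have hnew : ∀ b c, b3 U z0 b c = ∑ a, U a (z0 a b c) - p m (y b c) := by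
      intro b c
      unfold b3
      rw [Finset.sum_sub_distrib, hz0b]
    have hbb : b2 U (fun a b => y a b + b3 U z0 a b) = b2 U y := by
      funext b
      rw [b2_add]
      have := b2_b3 hG hirr z0 hz0a b
      show b2 U y b + b2 U (b3 U z0) b = _
      rw [this, add_zero]
    have hs : ∀ a b, Sup p (-n) 0 ((fun a b => y a b + b3 U z0 a b) a b) := by
      intro b c k hk
      show p k (y b c + b3 U z0 b c) = 0
      rw [hnew, map_add, map_sub, map_sum,
        Finset.sum_eq_zero (fun a _ => by rw [p_U hG, hz0d a b c (k - 1) (by omega), map_zero]),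
        zero_sub]
      by_cases h4 : k = m
      · rw [h4, hG.idem, add_neg_cancel]
      · rw [hG.orth _ _ _ h4, neg_zero, add_zero]
        exact hy b c k (by push_cast; omega)
    obtain ⟨y', hy'a, hy', hyb⟩ := ih _ (alt2_add ha (alt_b3 hG z0 hz0a)) hs
      (fun b k hk => by rw [hbb]; exact hb b k hk)
    exact ⟨y', hy'a, hy', hyb.trans hbb⟩

/-! ### degree three -/

theorem top3 (hG : Grad ad U U' p) (hA : Acyc ad) (K : ℤ)
    (n : ℕ) : ∀ z : V → V → V → M, IsAlt3 ad Set.univ z → (∀ a b c, Sup p (-K) ((n : ℤ) - 1) (z a b c)) →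
      (∀ b c k, 0 < k → p k (b3 U z b c) = 0) → (∀ a b c, Sup p (-K) (-1) (z a b c)) := by
  induction n with
  | zero =>
    intro z ha hz _
    exact fun a b c => by simpa using hz a b c
  | succ n ih =>
    intro z ha hz hb
    have hn : (0 : ℤ) ≤ n := Int.natCast_nonneg n
    have h1 : ∀ b c, ∑ a, U a (p n (z a b c)) = 0 := by
      intro b c
      have h1 := hb b c (n + 1) (by omega)
      rw [p_b3 hG] at h1
      have h2 : ∑ a, p ((n : ℤ) + 1) (z a b c) = 0 :=
        Finset.sum_eq_zero fun v _ => hz v b c _ (Or.inr (by push_cast; omega))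
      rw [h2, sub_zero] at h1
      have h3 : ((n : ℤ) + 1 - 1) = n := by ring
      rwa [h3] at h1
    set w : V → V → V → M := fun a b c => U a (U b (U c (p n (z a b c)))) with hw
    have hwa : IsAlt3 ad Set.univ w := alt3_U hG (alt3_p _ ha)
    have hwb : ∀ b c, ∑ a, w a b c = 0 := by
      intro b c
      have h3 : ∀ a, w a b c = U b (U c (U a (p n (z a b c)))) := by
        intro a
        by_cases hab : ad a b ∧ ad a c
        · show U a (U b (U c (p n (z a b c)))) = _
          rw [hG.comm a b hab.1, hG.comm a c hab.2]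
        · have h4 : z a b c = 0 := ha.2.2 a b c (fun h2 => hab ⟨h2.2.2.2.1, h2.2.2.2.2.2⟩)
          simp [hw, h4]
      rw [Finset.sum_congr rfl fun a _ => h3 a, ← map_sum, ← map_sum, h1, map_zero, map_zero]
    have h5 := hA.ac3 M w hwa hwb
    have h6 : ∀ a b c, p n (z a b c) = 0 := by
      intro a b c
      have h7 := h5 a b c
      have h8 : p n (z a b c) = U' c (U' b (U' a (w a b c))) := by
        rw [hw]
        simp only
        rw [hG.inv2, hG.inv2, hG.inv2]
      rw [h8, h7, map_zero, map_zero, map_zero]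
    apply ih z ha _ hb
    intro a b c k hk
    by_cases h9 : k = n
    · rw [h9]
      exact h6 a b c
    · exact hz a b c k (by push_cast; omega)

theorem bot3 (hG : Grad ad U U' p) (hA : Acyc ad)
    (n : ℕ) : ∀ z : V → V → V → M, IsAlt3 ad Set.univ z → (∀ a b c, Sup p (-n) (-1) (z a b c)) →
      (∀ b c k, k < 0 → p k (b3 U z b c) = 0) → (∀ a b c, z a b c = 0) := by
  induction n with
  | zero =>
    intro z ha hz _ a b c
    apply hG.ext
    intro k
    exact hz a b c k (by push_cast; omega)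
  | succ n ih =>
    intro z ha hz hb
    have hn : (0 : ℤ) ≤ n := Int.natCast_nonneg n
    obtain ⟨m, hm⟩ : ∃ m : ℤ, m = -(n + 1) := ⟨_, rfl⟩
    have h1 : ∀ b c, ∑ a, p m (z a b c) = 0 := by
      intro b c
      have h1 := hb b c m (by omega)
      rw [p_b3 hG] at h1
      have h2 : ∑ a, U a (p (m - 1) (z a b c)) = 0 :=
        Finset.sum_eq_zero fun v _ => by
          rw [hz v b c _ (Or.inl (by push_cast; omega)), map_zero]
      rwa [h2, zero_sub, neg_eq_zero] at h1
    have h5 := hA.ac3 M (fun a b c => p m (z a b c)) (alt3_p _ ha) h1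
    apply ih z ha _ hb
    intro a b c k hk
    by_cases h9 : k = m
    · rw [h9]
      exact h5 a b c
    · exact hz a b c k (by push_cast; omega)

/-- a common bound for the degrees of finitely many elements -/
theorem bound {ι : Type} [Finite ι] (hG : Grad ad U U' p) (x : ι → M) :
    ∃ K : ℕ, ∀ i, Sup p (-K) K (x i) := by
  classical
  cases nonempty_fintype ι
  choose k hk using fun i => hG.fin (x i)
  refine ⟨Finset.univ.sup k, fun i n hn => hk i n ?_⟩
  have h1 : k i ≤ Finset.univ.sup k := Finset.le_sup (Finset.mem_univ i)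
  omega

end

theorem tr : PropTR := by
  intro V M _ _ ad U U' p hsym hirr hA hG hE1 hE2
  refine ⟨?_, ?_, ?_⟩
  · intro y hy
    obtain ⟨K, hK⟩ := bound hG y
    obtain ⟨y1, hy1, hyb1⟩ := top1 hG hA hirr K (Int.natCast_nonneg K) K y
      (fun v => Sup_mono (hK v) le_rfl (by omega)) (fun k hk => hy k (Or.inr hk))
    obtain ⟨y2, hy2, hyb2⟩ := bot1 hG hA hirr K y1 hy1
      (fun k hk => by rw [hyb1]; exact hy k (Or.inl hk))
    exact ⟨y2, hy2, hyb2.trans hyb1⟩
  · intro x hx hb
    obtain ⟨y, hya, hyx⟩ := hE1 x hb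
    have hyx' : b2 U y = x := by
      funext b
      exact (hyx b).symm
    obtain ⟨K, hK⟩ := bound hG (fun q : V × V => y q.1 q.2)
    obtain ⟨y1, hy1a, hy1, hyb1⟩ := top2 hG hA hirr K (Int.natCast_nonneg K) K y hya
      (fun a b => hK (a, b)) (fun b k hk => by rw [hyx']; exact hx b k (Or.inr hk))
    obtain ⟨y2, hy2a, hy2, hyb2⟩ := bot2 hG hA hirr K y1 hy1a hy1
      (fun b k hk => by rw [hyb1, hyx']; exact hx b k (Or.inl hk))
    refine ⟨y2, hy2a, hy2, fun b => ?_⟩
    have h := congrFun (hyb2.trans (hyb1.trans hyx')) b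
    exact h.symm
  · intro y hya hy hb a b
    obtain ⟨z, hza, hzy⟩ := hE2 y hya hb
    obtain ⟨K, hK⟩ := bound hG (fun q : V × V × V => z q.1 q.2.1 q.2.2)
    have hzy' : ∀ b c, b3 U z b c = y b c := fun b c => (hzy b c).symm
    have h1 := top3 hG hA K (K + 1) z hza
      (fun a b c => Sup_mono (hK (a, b, c)) le_rfl (by push_cast; omega))
      (fun b c k hk => by rw [hzy']; exact hy b c k (Or.inr hk))
    have h2 := bot3 hG hA K z hza h1 (fun b c k hk => by rw [hzy']; exact hy b c k (Or.inl hk))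
    rw [hzy a b]
    refine Finset.sum_eq_zero fun v _ => ?_
    rw [h2, map_zero, sub_zero]

end Pool.Agent.HX6.HC
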